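import Pool.Agent.R800.TP.Lift

/-!
# Movies of virtual links recording the double curves through the triple points

A virtual link diagram is a Gauss code without any condition of planarity. A movie of virtual links
describes a surface in the thickening `M × [0, 1]` of a 3-manifold `M` (a handlebody, or a sum of
thickened surfaces), together with a generic projection to `M`; if all codes are planar, this is a
surface in the 4-ball.
-/

namespace Pool.Agent.W5h73.VM

open Pool.Agent.Y468.SR
open Pool.Agent.Y874.TP (colour TriAt)
open Pool.Agent.Y874.TP2 (CStep)

/-- `VMovie Z D T`: the virtual link `D` bounds disjoint connected surfaces, one for each label, by a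
movie of virtual links ending with the empty diagram, births of components being allowed. (No code
in this movie has to be planar.) Triple points of the projection (moves of type III) are of two
kinds: either at least two of the three double curves through the triple point have colours in `Z`,
or the three double curves have colours outside `Z`. `T` is the list of the triples of colours of
the double curves at the triple points of the second kind: the colour of the crossing of the top and
the middle strand, of the top and the bottom strand, and of the middle and the bottom strand. There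
are no other conditions on triple points. The surfaces are planar, except that (`handle`) a component
may be cut into two components of the boundary of the same piece of surface, one of which passes only
through crossings with colours in `Z`. -/
inductive VMovie (Z : ℕ → Prop) : Code → List (ℕ × ℕ × ℕ) → Prop
  | nil : VMovie Z [] []
  | step {D D' : Code} {T : List (ℕ × ℕ × ℕ)} (h : WellFormed D) (hs : CStep D D')
      (hm : VMovie Z D' T) : VMovie Z D T
  | three {D D' : Code} {T : List (ℕ × ℕ × ℕ)} (h : WellFormed D) (A B C E : List (Pass ⊕ ℕ))
      (X Y W t m b : Pass × Pass) (x y z : ℕ) (hT : TriAt x y z t m b)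
      (hP : List.Perm [X, Y, W] [t, m, b])
      (hD : enc D = A ++ two X.1 X.2 ++ B ++ two Y.1 Y.2 ++ C ++ two W.1 W.2 ++ E)
      (hD' : enc D' = A ++ two X.2 X.1 ++ B ++ two Y.2 Y.1 ++ C ++ two W.2 W.1 ++ E)
      (hZ : ¬Z (colour x) ∧ ¬Z (colour y) ∧ ¬Z (colour z))
      (hm : VMovie Z D' T) : VMovie Z D ((colour x, colour y, colour z) :: T)
  | inner {D D' : Code} {T : List (ℕ × ℕ × ℕ)} (h : WellFormed D) (A B C E : List (Pass ⊕ ℕ))
      (X Y W t m b : Pass × Pass) (x y z : ℕ) (hT : TriAt x y z t m b)
      (hP : List.Perm [X, Y, W] [t, m, b])
      (hD : enc D = A ++ two X.1 X.2 ++ B ++ two Y.1 Y.2 ++ C ++ two W.1 W.2 ++ E)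
      (hD' : enc D' = A ++ two X.2 X.1 ++ B ++ two Y.2 Y.1 ++ C ++ two W.2 W.1 ++ E)
      (hZ : Z (colour x) ∧ Z (colour y) ∨ Z (colour x) ∧ Z (colour z) ∨ Z (colour y) ∧ Z (colour z))
      (hm : VMovie Z D' T) : VMovie Z D T
  | handle {R : Code} {T : List (ℕ × ℕ × ℕ)} (x y : List Pass) (b : ℕ)
      (h : WellFormed ((x ++ y, b) :: R)) (hy : ∀ p ∈ y, Z (colour p.crossing))
      (hm : VMovie Z ((x, b) :: (y, b) :: R) T) : VMovie Z ((x ++ y, b) :: R) T

end Pool.Agent.W5h73.VM
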