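import Pool.Agent.W5h73.VM.Lift
import Pool.Agent.R800.TP.EvenC
import Pool.Agent.R800.BT.Final

/-! Classical links bounding virtual surfaces. -/

namespace Pool.Agent.W5h73.VM

open Pool.Agent.Y468.SR
open Pool.Agent.Y874.TP hiding S_REID S_REN S_THREE S_OUT S_CUT S_JUNC CStep CReid CM InvM InvC Inv3
open Pool.Agent.Y874.TP2
open Pool.Agent.Y874.TP2.T3
open Pool.Agent.R800.TP
open Pool.Agent.R800.BT (Mono Hts Iv iv_movie)

/-- Classical links bounding virtual surfaces whose curves meeting the link cross one another evenly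
bound ribbon discs. -/
theorem even_ribbon_virtual {Z : ℕ → Prop} {D : Code} {T : List (ℕ × ℕ × ℕ)} (hD : Classical D)
    (h : VMovie Z D T) (hZ : ∀ p ∈ passes D, ¬Z (colour p.crossing))
    (hn : (D.map Prod.snd).Nodup) (hc : ∀ κ, ((passes D).map ends).count κ ≤ 2)
    (he : ∀ p ∈ passes D, ∀ q ∈ passes D, ends p ≠ ends q →
      Even ((T.flatMap crs).count s(ends p, ends q))) : Movie true false D [] := by
  obtain ⟨Ts, hI, hs⟩ := vmovie_inv' RD.reid RN.ren TH.three h hZ
  obtain ⟨m, hm⟩ := hI.inv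
  rw [← tprs_all hs] at he
  exact movie_mono (ribbon_of_inv _ D le_rfl hD hn (inv_of_null (mt_matching hn hI hD.1 hm hc)
    (null_mt hn hI hD.1 hm hc he)))

/-- Classical links bounding virtual surfaces with at most one triple point on each component of the
double point set meeting the link bound ribbon discs. -/
theorem components_virtual {Z : ℕ → Prop} {D : Code} {T : List (ℕ × ℕ × ℕ)} (hD : Classical D)
    (h : VMovie Z D T) (hZ : ∀ p ∈ passes D, ¬Z (colour p.crossing))
    (hn : (D.map Prod.snd).Nodup) (hc : ∀ t ∈ T, t.2.1 = t.1 ∧ t.2.2 = t.1)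
    (ho : (T.map Prod.fst).Nodup) : Movie true false D [] := by
  obtain ⟨Ts, hI, hs⟩ := vmovie_inv' RD.reid RN.ren TH.three h hZ
  obtain ⟨m, hm⟩ := hI.inv
  have key : ∀ S ∈ Ts, Hts S ∧ colour S.b₁ = colour S.a₁ ∧ colour S.c₁ = colour S.a₁ := by
    intro S hS
    have h1 : sig S ∈ T.map fun t => (t, (true, true, true)) := by
      rw [← hs]; exact List.mem_map_of_mem hS
    obtain ⟨t, ht, h2⟩ := List.mem_map.1 h1
    obtain ⟨c1, c2⟩ := hc t ht
    simp only [sig, Prod.ext_iff] at h2
    obtain ⟨⟨h3, h4, h5⟩, h6, h7, h8⟩ := h2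
    refine ⟨⟨h6.symm, h7.symm, h8.symm⟩, ?_, ?_⟩
    · rw [← h4, ← h3, c1]
    · rw [← h5, ← h3, c2]
  have hfst : Ts.map (fun S => colour S.a₁) = T.map Prod.fst := by
    have h1 : (Ts.map sig).map (fun x => x.1.1) = (T.map fun t => (t, (true, true, true))).map
        (fun x => x.1.1) := by rw [hs]
    rw [List.map_map, List.map_map] at h1
    exact h1
  refine iv_movie (χ := colour) (m := m) ⟨⟨hI.wf, hm.1, hm.2.2, fun p hp => (hm.2.1 p hp).1⟩,
    fun S hS => ⟨(hI.ok S hS).1, (key S hS).1, ?_⟩, ?_⟩ hD hn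
  · obtain ⟨k1, k2, k3⟩ := (hI.ok S hS).2
    obtain ⟨-, k4, k5⟩ := key S hS
    have hall : ∀ c ∈ S.names, colour c = colour S.a₁ := by
      intro c hc
      simp only [Tri.names, List.mem_cons, List.not_mem_nil, or_false] at hc
      rcases hc with rfl | rfl | rfl | rfl | rfl | rfl
      · rfl
      · exact k1
      · exact k4
      · rw [k2, k4]
      · exact k5
      · rw [k3, k5]
    intro c hc d hd
    rw [hall c hc, hall d hd]
  · rw [hfst]
    exact ho

/-- Classical links bounding virtual surfaces without monogons and bigons near the link bound ribbon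
discs. -/
theorem noBigons_virtual {Z : ℕ → Prop} {D : Code} {T : List (ℕ × ℕ × ℕ)} (hD : Classical D)
    (h : VMovie Z D T) (hZ : ∀ p ∈ passes D, ¬Z (colour p.crossing))
    (hn : (D.map Prod.snd).Nodup) (hd : ∀ e ∈ T.flatMap crs, ¬e.IsDiag)
    (ho : (T.flatMap crs).Nodup) : Movie true false D [] := by
  obtain ⟨Ts, hI, hs⟩ := vmovie_inv' RD.reid RN.ren TH.three h hZ
  rw [← tprs_all hs] at hd ho
  exact movie_of_inv3 RD.reid CT.cut OT.out_inv Pool.Agent.Y333.TP.mid_planar
    Pool.Agent.Y514.TP.out_planar Pool.Agent.Y210.TP.move junc _ _ D Ts rfl rfl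
    hD hn ⟨hI.wf, hI.ok, hd, ho, hI.inv⟩

end Pool.Agent.W5h73.VM
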